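import Pool.Agent.Y440.K.Code

/-! Types of the flag indices: the mask test on the tables of indices. -/

set_option autoImplicit false
set_option maxRecDepth 100000

namespace Pool.Agent.Y954.Q440

open Pool.Agent.Y440.B (st bc al st_eq)
open Pool.Agent.Y440.K (ctb)

noncomputable section

/-- one in each of the 1024 lanes of 14 bits -/
def U : ℕ := Nat.div (Nat.sub (Nat.pow 2 14336) 1) 16383

theorem al_sound {n : ℕ} {f : ℕ → Bool} (h : al n f = true) : ∀ k < n, f k = true := by
  induction n with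
  | zero => intro k hk; omega
  | succ m ih =>
    intro k hk
    have h' : bc (f m) (al m f) false = true := h
    cases hm : f m with
    | false => rw [hm] at h'; exact absurd h' (by simp [bc])
    | true =>
      rw [hm] at h'
      have h2 : al m f = true := h'
      rcases Nat.lt_succ_iff_lt_or_eq.mp hk with h3 | h3
      · exact ih h2 k h3
      · rw [h3]; exact hm

/-- lanes of a multiple of `U` -/
def ckU (m : ℕ) : Bool :=
  al 1024 (fun f => Nat.beq (Nat.mod (Nat.shiftRight (Nat.mul m U) (Nat.mul 14 f)) 16384) m)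

theorem ckU_all : al 16 (fun t => ckU (Nat.mul 1024 t)) = true := by decide +kernel

theorem ckU_full : ckU 16383 = true := by decide +kernel

theorem ck_and : al 16 (fun a => al 1024 (fun b =>
    Nat.beq (Nat.land (Nat.add (Nat.mul 1024 a) b) 15360) (Nat.mul 1024 a))) = true := by decide +kernel

theorem lane_of_ckU {m : ℕ} (h : ckU m = true) {f : ℕ} (hf : f < 1024) :
    ((m * U) >>> (14 * f)) % 2 ^ 14 = m :=
  Nat.eq_of_beq_eq_true (al_sound h f hf)

theorem lane_U {t f : ℕ} (ht : t < 16) (hf : f < 1024) :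
    ((1024 * t * U) >>> (14 * f)) % 2 ^ 14 = 1024 * t :=
  lane_of_ckU (al_sound ckU_all t ht) hf

theorem and_hi {x : ℕ} (hx : x < 16384) : x &&& 15360 = 1024 * (x / 1024) := by
  have h1 : x / 1024 < 16 := by omega
  have h2 : x % 1024 < 1024 := by omega
  have h3 := Nat.eq_of_beq_eq_true (al_sound (al_sound ck_and _ h1) _ h2)
  have h4 : Nat.add (Nat.mul 1024 (x / 1024)) (x % 1024) = x := Nat.div_add_mod x 1024
  rw [h4] at h3
  exact h3

theorem and_full {x : ℕ} (hx : x < 16384) : x &&& 16383 = x := by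
  have := Nat.and_two_pow_sub_one_eq_mod x 14
  have h2 : x % 2 ^ 14 = x := Nat.mod_eq_of_lt hx
  rw [h2] at this
  exact this

theorem lane_and (T m f : ℕ) :
    ((T &&& m) >>> (14 * f)) % 2 ^ 14 = ((T >>> (14 * f)) % 2 ^ 14) &&& ((m >>> (14 * f)) % 2 ^ 14) := by
  rw [Nat.shiftRight_and_distrib, Nat.and_mod_two_pow]

theorem hi_of_mask {T t f : ℕ} (ht : t < 16) (hf : f < 1024) (h : T &&& (15360 * U) = 1024 * t * U) :
    1024 * t ≤ (T >>> (14 * f)) % 2 ^ 14 ∧ (T >>> (14 * f)) % 2 ^ 14 < 1024 * t + 1024 := by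
  have h1 := lane_and T (15360 * U) f
  rw [h, lane_U ht hf] at h1
  have h2 : ((15360 * U) >>> (14 * f)) % 2 ^ 14 = 15360 := lane_U (t := 15) (by omega) hf
  rw [h2] at h1
  have hx : (T >>> (14 * f)) % 2 ^ 14 < 16384 := Nat.mod_lt _ (by norm_num)
  rw [and_hi hx] at h1
  omega

theorem all_of_mask {T f : ℕ} (hf : f < 1024) (h : T &&& (16383 * U) = 14336 * U) :
    (T >>> (14 * f)) % 2 ^ 14 = 14336 := by
  have h1 := lane_and T (16383 * U) f
  have h3 : ((14336 * U) >>> (14 * f)) % 2 ^ 14 = 14336 := lane_U (t := 14) (by omega) hf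
  rw [h, h3, lane_of_ckU ckU_full hf] at h1
  have hx : (T >>> (14 * f)) % 2 ^ 14 < 16384 := Nat.mod_lt _ (by norm_num)
  rw [and_full hx] at h1
  exact h1.symm

/-- the mask test on a table -/
def ck1 (T : ℕ) : Bool :=
  st (fun h => bc (Nat.beq (Nat.land T (Nat.mul 16383 U)) (Nat.mul 14336 U)) true
    (bc (Nat.ble (Nat.succ (Nat.div (Nat.mod h 16384) 1024)) 14)
      (Nat.beq h (Nat.mul (Nat.mul 1024 (Nat.div (Nat.mod h 16384) 1024)) U)) false))
    (Nat.land T (Nat.mul 15360 U))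

theorem ck1_sound {T : ℕ} (h : ck1 T = true) : (∀ f < 1024, (T >>> (14 * f)) % 2 ^ 14 = 14336) ∨
    ∃ t < 14, ∀ f < 1024, 1024 * t ≤ (T >>> (14 * f)) % 2 ^ 14 ∧ (T >>> (14 * f)) % 2 ^ 14 < 1024 * t + 1024 := by
  unfold ck1 at h
  rw [st_eq] at h
  cases h1 : Nat.beq (Nat.land T (Nat.mul 16383 U)) (Nat.mul 14336 U) with
  | true =>
    left
    intro f hf
    exact all_of_mask hf (Nat.eq_of_beq_eq_true h1)
  | false =>
    right
    rw [h1] at h
    cases h2 : Nat.ble (Nat.succ (Nat.div (Nat.mod (Nat.land T (Nat.mul 15360 U)) 16384) 1024)) 14 with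
    | false => rw [h2] at h; exact absurd h (by simp [bc])
    | true =>
      rw [h2] at h
      have h3 := Nat.le_of_ble_eq_true h2
      have h4 := Nat.eq_of_beq_eq_true (show Nat.beq _ _ = true from h)
      exact ⟨Nat.div (Nat.mod (Nat.land T (Nat.mul 15360 U)) 16384) 1024, h3, fun f hf =>
        hi_of_mask (Nat.lt_of_lt_of_le h3 (by norm_num)) hf h4⟩

theorem ck_all : al 1024 (fun c => st ck1 (ctb c)) = true := by decide +kernel

theorem idx (c : ℕ) (hc : c < 1024) : (∀ f < 1024, ((ctb c) >>> (14 * f)) % 2 ^ 14 = 14336) ∨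
    ∃ t < 14, ∀ f < 1024, 1024 * t ≤ ((ctb c) >>> (14 * f)) % 2 ^ 14 ∧
      ((ctb c) >>> (14 * f)) % 2 ^ 14 < 1024 * t + 1024 := by
  have h := al_sound ck_all c hc
  have h2 : st ck1 (ctb c) = ck1 (ctb c) := st_eq ck1 (ctb c)
  have h3 : ck1 (ctb c) = true := h2.symm.trans h
  exact ck1_sound h3

end

end Pool.Agent.Y954.Q440
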