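import Pool.Agent.Y440.K.Stm
import Pool.Agent.Y954.Q440.IdxA

/-! Statement IDX: all flags over a code have indices of the same type. -/

set_option autoImplicit false
set_option maxRecDepth 100000

namespace Pool.Agent.Y954.Q440

theorem t : Pool.Agent.Y440.K.S_idx := fun c hc => idx c hc

end Pool.Agent.Y954.Q440
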